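import Pool.Agent.Lib.MP_100a6c_lc.IfaceC

/-!
# Module PB: adding many Cohen reals is centered
-/

universe u

open Cardinal
open scoped symmDiff

namespace Pool.Agent.Lib.MP_100a6c_lc.H53

variable {X : Type u}

/-- Finite partial functions from `X` to `{true, false}`. -/
structure Coh (X : Type u) : Type u where
  pos : Finset X
  neg : Finset X
  dis : ∀ x ∈ pos, x ∉ neg

instance : Preorder (Coh X) where
  le p q := q.pos ⊆ p.pos ∧ q.neg ⊆ p.neg
  le_refl p := ⟨subset_rfl, subset_rfl⟩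
  le_trans p q r h h' := ⟨h'.1.trans h.1, h'.2.trans h.2⟩

theorem Coh.le_def {p q : Coh X} : p ≤ q ↔ q.pos ⊆ p.pos ∧ q.neg ⊆ p.neg := Iff.rfl

open Classical in
/-- The total functions given by finitely many data. -/
noncomputable def tot {K : Type u} (s : X → Set K) (d : Finset K × Finset (Finset K)) (x : X) : Prop :=
  d.1.filter (fun k => k ∈ s x) ∈ d.2

theorem exists_tot {K : Type u} (s : X → Set K) (hs : Function.Injective s) (p : Coh X) :
    ∃ d, (∀ x ∈ p.pos, tot s d x) ∧ ∀ x ∈ p.neg, ¬ tot s d x := by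
  classical
  have h : ∀ x y : X, ∃ k : Option K, x ≠ y → ∃ k', k = some k' ∧ ¬ (k' ∈ s x ↔ k' ∈ s y) := by
    intro x y
    by_cases hxy : x = y
    · exact ⟨none, fun h => absurd hxy h⟩
    · have h1 : s x ≠ s y := fun h => hxy (hs h)
      have h2 : ∃ k', ¬ (k' ∈ s x ↔ k' ∈ s y) := by
        by_contra hcon
        push Not at hcon
        exact h1 (Set.ext hcon)
      obtain ⟨k', hk'⟩ := h2
      exact ⟨some k', fun _ => ⟨k', rfl, hk'⟩⟩
  choose k hk using h
  let F : Finset K := (p.pos.product p.neg).biUnion fun xy => (k xy.1 xy.2).toFinset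
  let G : Finset (Finset K) := p.pos.image fun x => F.filter (fun k => k ∈ s x)
  refine ⟨(F, G), fun x hx => ?_, fun x hx hcon => ?_⟩
  · exact Finset.mem_image_of_mem _ hx
  · obtain ⟨y, hy, hxy⟩ := Finset.mem_image.mp hcon
    have hne : y ≠ x := by
      rintro rfl
      exact p.dis y hy hx
    obtain ⟨k', hk', hk''⟩ := hk y x hne
    have hF : k' ∈ F := by
      refine Finset.mem_biUnion.mpr ⟨(y, x), Finset.mem_product.mpr ⟨hy, hx⟩, ?_⟩
      simp [hk']
    have h1 := Finset.ext_iff.mp hxy k'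
    simp only [Finset.mem_filter, hF, true_and] at h1
    exact hk'' h1

theorem exists_index {K : Type u} [Infinite K] : Nonempty (K ≃ Finset K × Finset (Finset K)) := by
  have h1 : #(Finset K) = #K := mk_finset_of_infinite K
  have h2 : #(Finset (Finset K)) = #K := by
    rw [mk_finset_of_infinite, h1]
  have h3 : #K = #(Finset K × Finset (Finset K)) := by
    rw [mk_prod, lift_id, lift_id, h1, h2]
    exact (mul_eq_self (aleph0_le_mk K)).symm
  exact Cardinal.eq.1 h3

theorem coh_centered (κ : ZFSet.{u}) (hκ : ℵ₀ ≤ κ.card) (hX : #X ≤ 2 ^ κ.card) :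
    Centered κ (Coh X) := by
  classical
  let K : Type u := Shrink.{u} {ξ : ZFSet.{u} // ξ ∈ κ}
  have hK : #K = κ.card := rfl
  have : Infinite K := Cardinal.infinite_iff.mpr (by rw [hK]; exact hκ)
  obtain ⟨e⟩ := exists_index (K := K)
  have h1 : #X ≤ #(Set K) := by
    rw [mk_set, hK]
    exact hX
  obtain ⟨s⟩ := (Cardinal.le_def _ _).mp h1
  refine ⟨fun ξ => {p | (∀ x ∈ p.pos, tot s (e (equivShrink _ ξ)) x) ∧
    ∀ x ∈ p.neg, ¬ tot s (e (equivShrink _ ξ)) x}, fun p => ?_, ?_⟩
  · obtain ⟨d, hd⟩ := exists_tot s s.injective p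
    refine ⟨(equivShrink _).symm (e.symm d), ?_⟩
    simpa using hd
  · intro ξ p hp q hq
    refine ⟨⟨p.pos ∪ q.pos, p.neg ∪ q.neg, ?_⟩, ⟨?_, ?_⟩, ⟨?_, ?_⟩, ⟨?_, ?_⟩⟩
    · intro x hx hx'
      rcases Finset.mem_union.mp hx with h | h <;> rcases Finset.mem_union.mp hx' with h' | h'
      · exact p.dis x h h'
      · exact hq.2 x h' (hp.1 x h)
      · exact hp.2 x h' (hq.1 x h)
      · exact q.dis x h h'
    · intro x hx
      rcases Finset.mem_union.mp hx with h | h
      · exact hp.1 x h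
      · exact hq.1 x h
    · intro x hx
      rcases Finset.mem_union.mp hx with h | h
      · exact hp.2 x h
      · exact hq.2 x h
    · exact Finset.subset_union_left
    · exact Finset.subset_union_left
    · exact Finset.subset_union_right
    · exact Finset.subset_union_right

/-- The conditions which force `x` to be true. -/
def posSet (x : X) : LowerSet (Coh X) where
  carrier := {p | x ∈ p.pos}
  lower' := fun _ _ h hx => h.1 hx

/-- The conditions which force `x` to be true, as an element of the regular open algebra. -/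
noncomputable def posR (x : X) : H1.RO (Coh X) := Heyting.Regular.toRegular (posSet x)

theorem mem_posR {x : X} {p : Coh X} (h : x ∈ p.pos) : p ∈ (posR x : LowerSet (Coh X)) := by
  have h1 : posSet x ≤ (posSet x)ᶜᶜ := le_compl_compl
  exact h1 h

theorem not_mem_posR {x : X} {p : Coh X} (h : x ∈ p.neg) : p ∉ (posR x : LowerSet (Coh X)) := by
  intro hp
  have hp' : p ∈ (posSet x)ᶜᶜ := hp
  have h1 : LowerSet.Iic p ≤ (posSet x)ᶜ := by
    rw [le_compl_iff_disjoint_right, disjoint_iff_inf_le]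
    rintro q ⟨hq, hq'⟩
    have hq1 : q ≤ p := hq
    have hq2 : x ∈ q.pos := hq'
    exact absurd (hq1.2 h) (q.dis x hq2)
  have h2 : LowerSet.Iic p ≤ (posSet x)ᶜᶜ := by
    intro q hq
    exact ((posSet x)ᶜᶜ).lower hq hp'
  have h3 : LowerSet.Iic p ≤ ⊥ := by
    have := le_inf h1 h2
    rwa [inf_compl_self] at this
  exact h3 (le_refl p)

/-- [PB] -/
theorem pb : PBStatement.{u} := by
  intro κ hκ L hL
  classical
  have hX : #(L × ULift.{u} ℕ) ≤ 2 ^ κ.card := by
    rw [mk_prod, lift_id, lift_id, mk_uLift, mk_nat, lift_aleph0]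
    have h1 : ℵ₀ ≤ (2 : Cardinal.{u}) ^ κ.card := hκ.trans (cantor _).le
    exact (mul_le_mul' hL h1).trans (mul_eq_self h1).le
  refine ⟨Coh (L × ULift.{u} ℕ), inferInstance, ⟨⟨∅, ∅, fun x hx => absurd hx (Finset.notMem_empty x)⟩⟩,
    coh_centered κ hκ hX, fun l n => posR (l, ULift.up n), fun l l' hll => ?_⟩
  by_contra hcon
  obtain ⟨p, hp⟩ := H1.exists_mem_of_ne_bot hcon
  obtain ⟨n, hn⟩ := Infinite.exists_notMem_finset ((p.pos ∪ p.neg).image fun x => x.2.down)
  have h1 : (l', ULift.up n) ∉ p.pos := fun h =>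
    hn (Finset.mem_image.mpr ⟨_, Finset.mem_union_left _ h, rfl⟩)
  have h2 : (l, ULift.up n) ∉ p.neg := fun h =>
    hn (Finset.mem_image.mpr ⟨_, Finset.mem_union_right _ h, rfl⟩)
  let q : Coh (L × ULift.{u} ℕ) := ⟨insert (l, ULift.up n) p.pos, insert (l', ULift.up n) p.neg, by
    intro x hx hx'
    rcases Finset.mem_insert.mp hx with h | h <;> rcases Finset.mem_insert.mp hx' with h' | h'
    · rw [h] at h'
      exact hll (congrArg Prod.fst h')
    · rw [h] at h'
      exact h2 h'
    · rw [h'] at h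
      exact h1 h
    · exact p.dis x h h'⟩
  have hqp : q ≤ p := ⟨Finset.subset_insert _ _, Finset.subset_insert _ _⟩
  have hq : q ∈ ((⨅ n, (posR (l, ULift.up n) ⇔ posR (l', ULift.up n)) :
      H1.RO (Coh (L × ULift.{u} ℕ))) : LowerSet (Coh (L × ULift.{u} ℕ))) :=
    LowerSet.lower _ hqp hp
  have hle : (⨅ n, (posR (l, ULift.up n) ⇔ posR (l', ULift.up n)) :
      H1.RO (Coh (L × ULift.{u} ℕ))) ⊓ posR (l, ULift.up n) ≤ posR (l', ULift.up n) := by
    refine (inf_le_inf_right _ (iInf_le _ n)).trans ?_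
    rw [bihimp_def]
    calc _ ≤ (posR (l, ULift.up n) ⇨ posR (l', ULift.up n)) ⊓ posR (l, ULift.up n) :=
          inf_le_inf_right _ inf_le_right
      _ ≤ _ := himp_inf_le
  have hmem : q ∈ (posR (l', ULift.up n) : LowerSet (Coh (L × ULift.{u} ℕ))) := by
    have h3 := Heyting.Regular.coe_le_coe.mpr hle
    apply h3
    rw [Heyting.Regular.coe_inf]
    exact ⟨hq, mem_posR (Finset.mem_insert_self _ _)⟩
  exact not_mem_posR (Finset.mem_insert_self _ _) hmem

end Pool.Agent.Lib.MP_100a6c_lc.H53
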